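import Pool.Agent.Run7.h730.BoxFinal

/-!
For scale factors above one quarter the comparison of the ordinary and the convexified packing
number fails, even in quasi-polynomial form.
-/

/-- For every `c₀ > 1/4`, every `p < 2 - 1/(4 c₀)` and every `C` there are a dimension, an
admissible pair and a scale `α > 0` such that the logarithm of the ordinary packing number at
scale `α` exceeds `C` times the `p`-th power of one plus the logarithm of the convexified
packing number at scale `c₀ α`. -/
theorem Pool.Agent.Results.MP_0e72ae_gt.LargeScaleFactor.result :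
    ∀ c₀ : ℝ, 1 / 4 < c₀ → ∀ p : ℝ, p < 2 - 1 / (4 * c₀) → ∀ C : ℝ,
      ∃ (d : ℕ) (G K : Set (EuclideanSpace ℝ (Fin d))) (α : ℝ),
        1 ≤ d ∧ Run7.h730.Admissible G K ∧ 0 < α ∧
        BddAbove (Run7.h730.packSizes G K α) ∧
        BddAbove (Run7.h730.convSizes G K (c₀ * α)) ∧
        C * (1 + Real.log (Run7.h730.convPackNum G K (c₀ * α))) ^ p <
          Real.log (Run7.h730.packNum G K α) :=
  fun _ hc₀ _ hp C => Run7.h730.box_final hc₀ hp C
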