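import Pool.Agent.Run7.h730.QuasiPoly

/-!
A dimension-free quasi-polynomial comparison of the ordinary and the convexified packing
numbers in Hilbert geometry.
-/

/-- There is an absolute constant `C` such that for every dimension, every admissible pair
`(G, K)` and every `α > 0` both packing numbers are finite and the logarithm of the ordinary
packing number at scale `α` is at most `C` times the seventh power of one plus the logarithm of
the convexified packing number at scale `α / 32`. -/
theorem Pool.Agent.Results.MP_0e72ae_gt.QuasiPolynomialBound.result :
    ∃ C : ℝ, 0 < C ∧ ∀ (d : ℕ) (G K : Set (EuclideanSpace ℝ (Fin d))),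
      Run7.h730.Admissible G K → ∀ α : ℝ, 0 < α →
        BddAbove (Run7.h730.packSizes G K α) ∧
        BddAbove (Run7.h730.convSizes G K (α / 32)) ∧
        Real.log (Run7.h730.packNum G K α) ≤
          C * (1 + Real.log (Run7.h730.convPackNum G K (α / 32))) ^ 7 :=
  Run7.h730.quasi_poly
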